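import Pool.Agent.H93.EA.Geo
import Pool.Agent.H56.EH.FIN

/-!
# H93.EA.Asm: from `L` cuts with few close pairs to geometric graphs
-/

set_option autoImplicit false

namespace Pool.Agent.H93.EA

open Finset Pool.Agent.H68 Pool.Agent.H93.EL
open scoped Classical

/-- the number of cuts which separate `a` and `b` -/
noncomputable def dist {α : Type} [Fintype α] (ρ : ℕ → α → ℕ) {L : ℕ} (t j : Fin L → ℕ) (a b : α) : ℕ :=
  (univ.filter fun i => ¬ (ρ (t i) a < j i ↔ ρ (t i) b < j i)).card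

/-- `Sch L r`: every allowable sequence has `L` prefixes with at most
`r² n² / (2 L) + C n` close pairs (pairs are counted with weight `r - d`) -/
def Sch (L r : ℕ) : Prop := ∃ C : ℝ, 0 ≤ C ∧ ∀ (α : Type) [Fintype α] (N : ℕ)
  (ρ : ℕ → α → ℕ), ASeq N ρ → 2 * L ∣ Fintype.card α → ∃ t j : Fin L → ℕ, (∀ i, t i ≤ N) ∧
    ∑ z : α × α, ((r - dist ρ t j z.1 z.2 : ℕ) : ℝ) ≤
      (r : ℝ) ^ 2 * (Fintype.card α : ℝ) ^ 2 / (2 * L) + C * Fintype.card α

theorem limL {A B c : ℝ} (hc : 0 ≤ c) {L : ℕ} (hL : 0 < L)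
    (h : ∀ K : ℕ, 0 < K → 2 * L ∣ K → A * (K : ℝ) ^ 2 ≤ B * (K : ℝ) ^ 2 + c * K) : A ≤ B := by
  by_contra hlt
  push Not at hlt
  have hd : 0 < A - B := by linarith
  obtain ⟨N, hN⟩ := exists_nat_gt (c / (A - B))
  have h1 : c < (A - B) * N := by
    rw [div_lt_iff₀ hd] at hN
    linarith
  have hK := h (2 * L * (N + 1)) (by positivity) (Dvd.intro _ rfl)
  push_cast at hK
  have hN0 : (0 : ℝ) ≤ N := Nat.cast_nonneg N
  have hL1 : (1 : ℝ) ≤ L := by exact_mod_cast hL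
  obtain ⟨x, hx⟩ : ∃ x : ℝ, x = 2 * (L : ℝ) * ((N : ℝ) + 1) := ⟨_, rfl⟩
  rw [← hx] at hK
  have hx1 : (N : ℝ) ≤ x := by rw [hx]; nlinarith
  have hx0 : 0 < x := by rw [hx]; positivity
  have h2 : (A - B) * N ≤ (A - B) * x := mul_le_mul_of_nonneg_left hx1 hd.le
  have h3 : c * x < (A - B) * x * x := mul_lt_mul_of_pos_right (by linarith) hx0
  nlinarith [h3, hK]

theorem bound (G : GeomHyp 2 2) {M : ℕ} (hM : Bd G M) {L r : ℕ} (hL : 0 < L) (h : Sch L r) :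
    (r : ℝ) * (2 * G.E.card) ≤
      L * (2 * M) + (r : ℝ) ^ 2 * (G.V.card : ℝ) ^ 2 / (2 * L) := by
  obtain ⟨C, hC, h⟩ := h
  rcases G.V.eq_empty_or_nonempty with hV | hV
  · have hE : G.E.card = 0 := by
      have h1 := ord_card G
      have h2 : ord G = ∅ := by
        rw [eq_empty_iff_forall_notMem]
        intro z hz
        have := (mem_offDiag.1 (mem_filter.1 hz).1).1
        rw [hV] at this
        exact notMem_empty _ this
      rw [h2] at h1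
      simpa using h1.symm
    rw [hE, hV]
    simp
    positivity
  obtain ⟨ε, hF⟩ := exists_frame G
  refine limL (L := L) (c := C * G.V.card) (by positivity) hL fun K hK hLK => ?_
  obtain ⟨N, ρ, hρ, hlow⟩ := geo hF hK hV
  have hcard : Fintype.card (G.V × Fin K) = G.V.card * K := by
    rw [Fintype.card_prod, Fintype.card_fin, Fintype.card_coe]
  obtain ⟨t, j, ht, hs⟩ := h (G.V × Fin K) N ρ hρ (by
    rw [hcard]
    exact hLK.mul_left _)
  obtain ⟨E, hE⟩ : ∃ E : Finset ((G.V × Fin K) × (G.V × Fin K)), E = univ.filter fun z =>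
    ((z.1.1 : Pt 2), (z.2.1 : Pt 2)) ∈ ord G := ⟨_, rfl⟩
  have hEc : E.card = 2 * G.E.card * K ^ 2 := by
    rw [hE]
    exact Pool.Agent.H56.EH.card_E G K
  -- every cut separates few edges
  have hcut : ∀ i : Fin L, (E.filter fun z => ¬ (ρ (t i) z.1 < j i ↔ ρ (t i) z.2 < j i)).card ≤
      2 * M * K ^ 2 := by
    intro i
    obtain ⟨s, hs⟩ := hlow (t i) (ht i) (j i)
    have h1 := Pool.Agent.H70.EH.cutw G hM (pre ρ (t i) (j i)) fun A hA h1 h2 =>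
      low_cut hF (hs A hA h1 h2)
    refine le_trans (le_of_eq ?_) h1
    congr 1
    ext z
    rw [hE]
    simp only [mem_filter, mem_pre]
    tauto
  have h1 : ∀ z : (G.V × Fin K) × (G.V × Fin K), r ≤ dist ρ t j z.1 z.2 + (r - dist ρ t j z.1 z.2) := by
    intro z
    omega
  have h2 : ∑ z ∈ E, dist ρ t j z.1 z.2 ≤ L * (2 * M * K ^ 2) := by
    have e1 : ∑ z ∈ E, dist ρ t j z.1 z.2 =
        ∑ i : Fin L, (E.filter fun z => ¬ (ρ (t i) z.1 < j i ↔ ρ (t i) z.2 < j i)).card :=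
      sum_card_bipartiteAbove_eq_sum_card_bipartiteBelow
        (fun (z : (G.V × Fin K) × (G.V × Fin K)) (i : Fin L) =>
          ¬ (ρ (t i) z.1 < j i ↔ ρ (t i) z.2 < j i))
    rw [e1]
    calc ∑ i : Fin L, (E.filter fun z => ¬ (ρ (t i) z.1 < j i ↔ ρ (t i) z.2 < j i)).card
        ≤ ∑ _i : Fin L, 2 * M * K ^ 2 := sum_le_sum fun i _ => hcut i
      _ = L * (2 * M * K ^ 2) := by rw [sum_const, card_univ, Fintype.card_fin, smul_eq_mul]
  have h3 : ∑ z ∈ E, ((r - dist ρ t j z.1 z.2 : ℕ) : ℝ) ≤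
      ∑ z : (G.V × Fin K) × (G.V × Fin K), ((r - dist ρ t j z.1 z.2 : ℕ) : ℝ) :=
    sum_le_sum_of_subset_of_nonneg (subset_univ _) fun z _ _ => Nat.cast_nonneg _
  have h4 : (r : ℝ) * E.card ≤ ((∑ z ∈ E, dist ρ t j z.1 z.2 : ℕ) : ℝ) +
      ∑ z ∈ E, ((r - dist ρ t j z.1 z.2 : ℕ) : ℝ) := by
    have e1 : (r : ℝ) * E.card = ∑ _z ∈ E, (r : ℝ) := by
      rw [sum_const, nsmul_eq_mul]
      ring
    rw [e1, Nat.cast_sum, ← sum_add_distrib]
    refine sum_le_sum fun z _ => ?_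
    exact_mod_cast h1 z
  have h5 : ((∑ z ∈ E, dist ρ t j z.1 z.2 : ℕ) : ℝ) ≤ L * (2 * M * (K : ℝ) ^ 2) := by
    exact_mod_cast h2
  rw [hEc] at h4
  rw [hcard] at hs
  push_cast at h4 h5 hs
  have e2 : (r : ℝ) ^ 2 * ((G.V.card : ℝ) * K) ^ 2 / (2 * L) =
      (r : ℝ) ^ 2 * (G.V.card : ℝ) ^ 2 / (2 * L) * (K : ℝ) ^ 2 := by ring
  rw [e2] at hs
  nlinarith [h3, h4, h5, hs]

/-- one window -/
theorem window {L r n m : ℕ} (hL : 0 < L) (h : Sch L r) (hmn : m ≤ n.choose 2) :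
    (r : ℝ) / L * m - ((r : ℝ) / L) ^ 2 * (n : ℝ) ^ 2 / 4 ≤ (fval 2 2 1 m n : ℝ) := by
  refine fv_of hmn _ fun G hV hE M hM => ?_
  have hb := bound G hM hL h
  rw [hV, hE] at hb
  have hL0 : (0 : ℝ) < L := by exact_mod_cast hL
  have e1 : (r : ℝ) / L * m - ((r : ℝ) / L) ^ 2 * (n : ℝ) ^ 2 / 4 =
      ((r : ℝ) * (2 * m) - (r : ℝ) ^ 2 * (n : ℝ) ^ 2 / (2 * L)) / (2 * L) := by
    field_simp
    ring
  rw [e1, div_le_iff₀ (by positivity)]
  linarith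

/-- the conjecture of Erdős, Lovász, Simmons and Straus for all `m` -/
theorem full (h : ∀ L r : ℕ, 0 < L → 2 * r ≤ L → Sch L r) {n m : ℕ} (hmn : m ≤ n.choose 2) :
    (m : ℝ) ^ 2 / (n : ℝ) ^ 2 ≤ (fval 2 2 1 m n : ℝ) := by
  rcases le_or_gt (n ^ 2) (4 * m) with h4 | h4
  · exact Pool.Agent.H56.EH.half hmn h4
  rcases Nat.eq_zero_or_pos n with h0 | hn
  · subst h0
    simp
  have hL : 0 < n ^ 2 := by positivity
  have hw := window (L := n ^ 2) (r := 2 * m) hL (h _ _ hL (by omega)) hmn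
  refine le_trans (le_of_eq ?_) hw
  have hn0 : (n : ℝ) ≠ 0 := by exact_mod_cast hn.ne'
  push_cast
  field_simp
  ring

end Pool.Agent.H93.EA
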