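import Pool.Agent.H93.EA.LemA

/-!
# H93.EA.Rot: another starting time, and monotonicity of the swept sets of halving prefixes
-/

set_option autoImplicit false

namespace Pool.Agent.H93.EA

open Finset

variable {α : Type} [Fintype α] [DecidableEq α] {N : ℕ} {ρ : ℕ → α → ℕ}

/-- the sequence for the times `0 ≤ t ≤ 2 N` -/
def ext (N : ℕ) (ρ : ℕ → α → ℕ) (u : ℕ) (a : α) : ℕ :=
  if u ≤ N then ρ u a else Fintype.card α - 1 - ρ (u - N) a

omit [DecidableEq α] in
theorem ext_le {u : ℕ} (hu : u ≤ N) (a : α) : ext N ρ u a = ρ u a := if_pos hu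

omit [DecidableEq α] in
theorem ext_gt {u : ℕ} (hu : N < u) (a : α) :
    ext N ρ u a = Fintype.card α - 1 - ρ (u - N) a := if_neg (by omega)

theorem ext_add (h : ASeq N ρ) (s : ℕ) (a : α) (hs : s ≤ N) :
    ext N ρ (s + N) a = Fintype.card α - 1 - ρ s a := by
  rcases Nat.eq_zero_or_pos s with h0 | h0
  · subst h0
    rw [zero_add, ext_le le_rfl]
    have := rev h a
    omega
  · rw [ext_gt (by omega), Nat.add_sub_cancel]

theorem rot (h : ASeq N ρ) {s : ℕ} (hs : s ≤ N) : ASeq N (fun t a => ext N ρ (s + t) a) := by
  have hlt := h.lt_card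
  refine ⟨?_, ?_, ?_, ?_, ?_⟩
  · intro t ht a b hab
    simp only at hab
    rcases le_or_gt (s + t) N with h1 | h1
    · rw [ext_le h1, ext_le h1] at hab
      exact h.inj _ h1 hab
    · rw [ext_gt h1, ext_gt h1] at hab
      have e1 := hlt (s + t - N) (by omega) a
      have e2 := hlt (s + t - N) (by omega) b
      exact h.inj (s + t - N) (by omega) (by omega)
  · intro t ht a
    rcases le_or_gt (s + t) N with h1 | h1
    · rw [ext_le h1]
      exact hlt _ h1 a
    · rw [ext_gt h1]
      have e1 := hlt (s + t - N) (by omega) a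
      omega
  · intro t ht a
    rcases lt_trichotomy (s + t) N with h1 | h1 | h1
    · rw [ext_le h1.le, ext_le (by omega), ← add_assoc]
      exact h.up _ h1 a
    · rw [ext_le h1.le, ext_gt (by omega)]
      have e1 := rev h a
      have e2 := hlt 1 (by omega) a
      have e3 := h.dn 0 (by omega) a
      have e4 : s + (t + 1) - N = 1 := by omega
      rw [e4, h1]
      simp only [zero_add] at e3
      omega
    · rw [ext_gt h1, ext_gt (by omega)]
      have e1 := hlt (s + t - N) (by omega) a
      have e2 := hlt (s + t - N + 1) (by omega) a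
      have e3 := h.dn (s + t - N) (by omega) a
      have e4 : s + (t + 1) - N = s + t - N + 1 := by omega
      rw [e4]
      omega
  · intro t ht a
    rcases lt_trichotomy (s + t) N with h1 | h1 | h1
    · rw [ext_le h1.le, ext_le (by omega), ← add_assoc]
      exact h.dn _ h1 a
    · rw [ext_le h1.le, ext_gt (by omega)]
      have e1 := rev h a
      have e2 := hlt 1 (by omega) a
      have e3 := h.up 0 (by omega) a
      have e4 : s + (t + 1) - N = 1 := by omega
      rw [e4, h1]
      simp only [zero_add] at e3
      omega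
    · rw [ext_gt h1, ext_gt (by omega)]
      have e1 := hlt (s + t - N) (by omega) a
      have e2 := hlt (s + t - N + 1) (by omega) a
      have e3 := h.up (s + t - N) (by omega) a
      have e4 : s + (t + 1) - N = s + t - N + 1 := by omega
      rw [e4]
      omega
  · intro a b hab
    simp only [add_zero] at hab
    rw [ext_le hs, ext_le hs] at hab
    have hne : a ≠ b := by
      rintro rfl
      exact absurd hab (lt_irrefl _)
    rcases lt_trichotomy (ρ 0 a) (ρ 0 b) with h1 | h1 | h1
    · obtain ⟨θ, hθ, h2⟩ := h.once a b h1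
      have hsθ : s ≤ θ := by
        by_contra hc
        exact absurd ((h2 s hs).2 (by omega)) hab.asymm
      refine ⟨θ - s, by omega, fun t ht => ⟨fun h3 => ?_, fun h3 => ?_⟩⟩
      · rw [ext_le (by omega), ext_le (by omega)]
        exact (h2 _ (by omega)).1 (by omega)
      · rcases le_or_gt (s + t) N with h4 | h4
        · rw [ext_le h4, ext_le h4]
          exact (h2 _ h4).2 (by omega)
        · rw [ext_gt h4, ext_gt h4]
          have e1 := (h2 (s + t - N) (by omega)).1 (by omega)
          have e2 := hlt (s + t - N) (by omega) a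
          have e3 := hlt (s + t - N) (by omega) b
          omega
    · exact absurd (h.inj 0 (Nat.zero_le _) h1) hne
    · obtain ⟨θ, hθ, h2⟩ := h.once b a h1
      have hsθ : θ < s := by
        by_contra hc
        exact absurd ((h2 s hs).1 (by omega)) hab.asymm
      refine ⟨θ + N - s, by omega, fun t ht => ⟨fun h3 => ?_, fun h3 => ?_⟩⟩
      · rcases le_or_gt (s + t) N with h4 | h4
        · rw [ext_le h4, ext_le h4]
          exact (h2 _ h4).2 (by omega)
        · rw [ext_gt h4, ext_gt h4]
          have e1 := (h2 (s + t - N) (by omega)).1 (by omega)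
          have e2 := hlt (s + t - N) (by omega) a
          have e3 := hlt (s + t - N) (by omega) b
          omega
      · rw [ext_gt (by omega), ext_gt (by omega)]
        have e1 := (h2 (s + t - N) (by omega)).2 (by omega)
        have e2 := hlt (s + t - N) (by omega) a
        have e3 := hlt (s + t - N) (by omega) b
        omega

/-- the swept part of the first prefix grows -/
theorem swept_mono_step (h : ASeq N ρ) {m : ℕ} (hm : m ≤ Fintype.card α) {t : ℕ} (ht : t < N) :
    (pre ρ 0 m \ pre ρ t m).card ≤ (pre ρ 0 m \ pre ρ (t + 1) m).card := by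
  rcases exch h ht hm with he | ⟨a, b, ha, hb, hb', ha', he⟩
  · rw [he]
  · have hbt : b ∉ pre ρ t m := by
      rw [mem_pre]
      omega
    have hat : a ∈ pre ρ t m := by
      rw [mem_pre]
      omega
    rw [he]
    by_cases hb0 : b ∈ pre ρ 0 m
    · -- then `a` is in the first prefix as well
      have ha0 : a ∈ pre ρ 0 m := by
        by_contra ha0
        have h1 : ρ 0 b < ρ 0 a := by
          rw [mem_pre] at hb0 ha0
          omega
        have h2 := stay h h1 (s := t) (t := t + 1) (by omega) ht (by omega)
        omega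
      have e1 : pre ρ 0 m \ insert b ((pre ρ t m).erase a) =
          insert a ((pre ρ 0 m \ pre ρ t m).erase b) := by
        ext x
        simp only [mem_sdiff, mem_insert, mem_erase, not_or, not_and]
        constructor
        · rintro ⟨h1, h2, h3⟩
          by_cases hx : x = a
          · exact Or.inl hx
          · exact Or.inr ⟨h2, h1, fun h4 => h3 hx h4⟩
        · rintro (rfl | ⟨h1, h2, h3⟩)
          · refine ⟨ha0, ?_, fun h4 => absurd rfl h4⟩
            rintro rfl
            exact hbt hat
          · exact ⟨h2, h1, fun _ h4 => absurd h4 h3⟩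
      rw [e1, card_insert_of_notMem, card_erase_add_one]
      · exact mem_sdiff.2 ⟨hb0, hbt⟩
      · intro hc
        exact (mem_sdiff.1 (mem_erase.1 hc).2).2 hat
    · apply card_le_card
      intro x hx
      rw [mem_sdiff] at hx ⊢
      refine ⟨hx.1, fun hc => ?_⟩
      rcases mem_insert.1 hc with h1 | h1
      · subst h1
        exact hb0 hx.1
      · exact hx.2 (mem_erase.1 h1).2

theorem swept_mono (h : ASeq N ρ) {m : ℕ} (hm : m ≤ Fintype.card α) {s t : ℕ} (hst : s ≤ t)
    (ht : t ≤ N) : (pre ρ 0 m \ pre ρ s m).card ≤ (pre ρ 0 m \ pre ρ t m).card := by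
  induction t, hst using Nat.le_induction with
  | base => exact le_rfl
  | succ t hst ih => exact (ih (by omega)).trans (swept_mono_step h hm (by omega))

/-- the pair property for points on different sides: `a` in the first prefix, `b` outside -/
theorem cross (h : ASeq N ρ) {m : ℕ} {a b : α} (ha : a ∈ pre ρ 0 m) (hb : b ∉ pre ρ 0 m)
    {s t j k : ℕ} (hst : s ≤ t) (ht : t ≤ N) (h1 : a ∉ pre ρ s j) (h2 : b ∈ pre ρ s j)
    (h3 : a ∈ pre ρ t k) : b ∈ pre ρ t k := by
  rw [mem_pre] at *
  have h0 : ρ 0 a < ρ 0 b := by omega
  have := stay h h0 hst ht (by omega)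
  omega

end Pool.Agent.H93.EA
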