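import Mathlib

/-!
# H93.EA: allowable sequences (MP_737bdd_co)

`ASeq N ρ`: `ρ t` is, for every time `t ≤ N`, a bijection of a finite set `α` with `{0, .., n - 1}`; in
every step every position changes by at most one, and the points of every pair are exchanged exactly
once. `pre ρ t j` is the set of the first `j` points at time `t`.
-/

set_option autoImplicit false

namespace Pool.Agent.H93.EA

open Finset

/-- an allowable sequence -/
structure ASeq {α : Type} [Fintype α] (N : ℕ) (ρ : ℕ → α → ℕ) : Prop where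
  inj : ∀ t ≤ N, Function.Injective (ρ t)
  lt_card : ∀ t ≤ N, ∀ a, ρ t a < Fintype.card α
  up : ∀ t < N, ∀ a, ρ (t + 1) a ≤ ρ t a + 1
  dn : ∀ t < N, ∀ a, ρ t a ≤ ρ (t + 1) a + 1
  once : ∀ a b, ρ 0 a < ρ 0 b → ∃ θ < N, ∀ t ≤ N,
    (t ≤ θ → ρ t a < ρ t b) ∧ (θ < t → ρ t b < ρ t a)

variable {α : Type} [Fintype α] [DecidableEq α] {N : ℕ} {ρ : ℕ → α → ℕ}

/-- the first `j` points at time `t` -/
def pre (ρ : ℕ → α → ℕ) (t j : ℕ) : Finset α := univ.filter fun a => ρ t a < j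

theorem mem_pre {t j : ℕ} {a : α} : a ∈ pre ρ t j ↔ ρ t a < j := by
  unfold pre
  simp

theorem pre_mono {t j k : ℕ} (h : j ≤ k) : pre ρ t j ⊆ pre ρ t k := by
  intro a ha
  rw [mem_pre] at ha ⊢
  omega

theorem card_pre (h : ASeq N ρ) {t j : ℕ} (ht : t ≤ N) (hj : j ≤ Fintype.card α) :
    (pre ρ t j).card = j := by
  have himg : univ.image (ρ t) = range (Fintype.card α) := by
    apply eq_of_subset_of_card_le
    · intro x hx
      obtain ⟨a, -, rfl⟩ := mem_image.1 hx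
      exact mem_range.2 (h.lt_card t ht a)
    · rw [card_range, card_image_of_injective _ (h.inj t ht), card_univ]
  have h1 : ((univ.image (ρ t)).filter (· < j)).card = (pre ρ t j).card := by
    unfold pre
    rw [filter_image, card_image_of_injective _ (h.inj t ht)]
  rw [← h1, himg]
  have h2 : (range (Fintype.card α)).filter (· < j) = range j := by
    ext x
    simp only [mem_filter, mem_range]
    omega
  rw [h2, card_range]

theorem pre_zero (t : ℕ) : pre ρ t 0 = ∅ := by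
  ext a
  rw [mem_pre]
  simp

theorem pre_card (h : ASeq N ρ) {t : ℕ} (ht : t ≤ N) : pre ρ t (Fintype.card α) = univ := by
  ext a
  rw [mem_pre]
  simp [h.lt_card t ht a]

theorem rev (h : ASeq N ρ) (a : α) : ρ N a + ρ 0 a + 1 = Fintype.card α := by
  have h0 : ∀ b, b ≠ a → (ρ N b < ρ N a ↔ ρ 0 a < ρ 0 b) := by
    intro b hb
    rcases lt_trichotomy (ρ 0 a) (ρ 0 b) with h1 | h1 | h1
    · obtain ⟨θ, hθ, h2⟩ := h.once a b h1
      exact iff_of_true ((h2 N le_rfl).2 hθ) h1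
    · exact absurd (h.inj 0 (Nat.zero_le _) h1).symm hb
    · obtain ⟨θ, hθ, h2⟩ := h.once b a h1
      exact iff_of_false ((h2 N le_rfl).2 hθ).asymm h1.asymm
  have h1 : pre ρ N (ρ N a) = ((pre ρ 0 (ρ 0 a + 1)))ᶜ := by
    ext b
    rw [mem_compl, mem_pre, mem_pre]
    by_cases hb : b = a
    · subst hb
      simp
    · rw [h0 b hb]
      omega
  have h2 := card_pre h (t := N) le_rfl (h.lt_card N le_rfl a).le
  have h3 := card_pre h (t := 0) (Nat.zero_le _) (j := ρ 0 a + 1) (h.lt_card 0 (Nat.zero_le _) a)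
  have h4 := card_add_card_compl (pre ρ 0 (ρ 0 a + 1))
  rw [← h1] at h4
  omega

theorem pre_N (h : ASeq N ρ) {j : ℕ} (hj : j ≤ Fintype.card α) :
    pre ρ N j = (pre ρ 0 (Fintype.card α - j))ᶜ := by
  ext a
  rw [mem_compl, mem_pre, mem_pre]
  have := rev h a
  omega

/-- the point which enters in a step -/
theorem enter (h : ASeq N ρ) {t : ℕ} (ht : t < N) {j : ℕ} {a : α} (h1 : a ∉ pre ρ t j)
    (h2 : a ∈ pre ρ (t + 1) j) : ρ t a = j ∧ ρ (t + 1) a + 1 = j := by
  rw [mem_pre] at h1 h2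
  have := h.dn t ht a
  omega

/-- the point which leaves in a step -/
theorem leave (h : ASeq N ρ) {t : ℕ} (ht : t < N) {j : ℕ} {a : α} (h1 : a ∈ pre ρ t j)
    (h2 : a ∉ pre ρ (t + 1) j) : ρ t a + 1 = j ∧ ρ (t + 1) a = j := by
  rw [mem_pre] at h1 h2
  have := h.up t ht a
  omega

/-- the pair property: before `θ` the point `a` comes first, after `θ` the point `b` -/
theorem pair (h : ASeq N ρ) (a b : α) :
    (∃ θ, (∀ t ≤ N, t ≤ θ → ρ t a ≤ ρ t b) ∧ (∀ t ≤ N, θ < t → ρ t b ≤ ρ t a)) ∨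
    (∃ θ, (∀ t ≤ N, t ≤ θ → ρ t b ≤ ρ t a) ∧ (∀ t ≤ N, θ < t → ρ t a ≤ ρ t b)) := by
  rcases lt_trichotomy (ρ 0 a) (ρ 0 b) with h1 | h1 | h1
  · obtain ⟨θ, -, h2⟩ := h.once a b h1
    exact Or.inl ⟨θ, fun t ht h3 => ((h2 t ht).1 h3).le, fun t ht h3 => ((h2 t ht).2 h3).le⟩
  · have := h.inj 0 (Nat.zero_le _) h1
    subst this
    exact Or.inl ⟨0, fun t _ _ => le_rfl, fun t _ _ => le_rfl⟩
  · obtain ⟨θ, -, h2⟩ := h.once b a h1
    exact Or.inr ⟨θ, fun t ht h3 => ((h2 t ht).1 h3).le, fun t ht h3 => ((h2 t ht).2 h3).le⟩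

/-- if the order of `a` and `b` is not the initial one at time `t` it stays so -/
theorem stay (h : ASeq N ρ) {a b : α} (h0 : ρ 0 a < ρ 0 b) {s t : ℕ} (hst : s ≤ t) (ht : t ≤ N)
    (h1 : ρ s b < ρ s a) : ρ t b < ρ t a := by
  obtain ⟨θ, -, h2⟩ := h.once a b h0
  have h3 : θ < s := by
    by_contra hc
    exact absurd ((h2 s (hst.trans ht)).1 (not_lt.1 hc)) h1.asymm
  exact (h2 t ht).2 (by omega)

end Pool.Agent.H93.EA
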