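import Pool.Agent.H93.EA.Def
import Pool.Agent.H93.EH.SEQ

/-!
# H93.EA.Geo: allowable sequences of the `K`-blow-up of a planar point set
-/

set_option autoImplicit false

namespace Pool.Agent.H93.EA

open Finset Pool.Agent.H68 Pool.Agent.H93.EL Pool.Agent.H93.EH
open scoped Classical

section
variable {α β : Type} [Fintype α] [DecidableEq α] [LinearOrder β]

theorem aseq_of_keys (N : ℕ) (κ : ℕ → α → β) (lt0 : α → α → Prop) (θ : α → α → ℕ)
    (htot : ∀ a b, a ≠ b → lt0 a b ∨ lt0 b a)
    (h1 : ∀ a b, lt0 a b → ∀ t ≤ N, t ≤ θ a b → κ t a < κ t b)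
    (h2 : ∀ a b, lt0 a b → ∀ t ≤ N, θ a b < t → κ t b < κ t a)
    (h3 : ∀ a b, lt0 a b → θ a b < N)
    (huniq : ∀ a b b' t, (lt0 a b ∧ θ a b = t ∨ lt0 b a ∧ θ b a = t) →
      (lt0 a b' ∧ θ a b' = t ∨ lt0 b' a ∧ θ b' a = t) → b = b') :
    ASeq N (fun t => rk (κ t)) := by
  have hinj : ∀ t ≤ N, Function.Injective (κ t) := by
    intro t ht a b hab
    by_contra hne
    rcases htot a b hne with h | h
    · rcases le_or_gt t (θ a b) with h' | h'
      · exact absurd hab (h1 a b h t ht h').ne
      · exact absurd hab (h2 a b h t ht h').ne'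
    · rcases le_or_gt t (θ b a) with h' | h'
      · exact absurd hab (h1 b a h t ht h').ne'
      · exact absurd hab (h2 b a h t ht h').ne
  have hchg : ∀ t < N, ∀ a b, (κ t a < κ t b ∧ κ (t + 1) b < κ (t + 1) a) ∨
      (κ t b < κ t a ∧ κ (t + 1) a < κ (t + 1) b) →
      (lt0 a b ∧ θ a b = t ∨ lt0 b a ∧ θ b a = t) := by
    intro t ht a b h
    have hne : a ≠ b := by
      rintro rfl
      rcases h with h | h
      · exact absurd h.1 (lt_irrefl _)
      · exact absurd h.1 (lt_irrefl _)
    rcases htot a b hne with h0 | h0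
    · left
      refine ⟨h0, ?_⟩
      by_contra hθ
      rcases lt_or_gt_of_ne hθ with h' | h'
      · have e1 := h2 a b h0 t ht.le h'
        have e2 := h2 a b h0 (t + 1) ht (by omega)
        rcases h with h | h
        · exact absurd h.1 e1.asymm
        · exact absurd h.2 e2.asymm
      · have e1 := h1 a b h0 t ht.le (by omega)
        have e2 := h1 a b h0 (t + 1) ht (by omega)
        rcases h with h | h
        · exact absurd h.2 e2.asymm
        · exact absurd h.1 e1.asymm
    · right
      refine ⟨h0, ?_⟩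
      by_contra hθ
      rcases lt_or_gt_of_ne hθ with h' | h'
      · have e1 := h2 b a h0 t ht.le h'
        have e2 := h2 b a h0 (t + 1) ht (by omega)
        rcases h with h | h
        · exact absurd h.2 e2.asymm
        · exact absurd h.1 e1.asymm
      · have e1 := h1 b a h0 t ht.le (by omega)
        have e2 := h1 b a h0 (t + 1) ht (by omega)
        rcases h with h | h
        · exact absurd h.1 e1.asymm
        · exact absurd h.2 e2.asymm
  have hX : ∀ a t, (univ.filter fun b => lt0 a b ∧ θ a b = t ∨ lt0 b a ∧ θ b a = t).card ≤ 1 := by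
    intro a t
    rw [card_le_one]
    intro b hb b' hb'
    simp only [mem_filter, mem_univ, true_and] at hb hb'
    exact huniq a b b' t hb hb'
  refine ⟨fun t ht => rk_inj (hinj t ht), fun t _ a => rk_lt_card _ a, ?_, ?_, ?_⟩
  · intro t ht a
    have hs : (univ.filter fun b => κ (t + 1) b < κ (t + 1) a) ⊆
        (univ.filter fun b => κ t b < κ t a) ∪
          (univ.filter fun b => lt0 a b ∧ θ a b = t ∨ lt0 b a ∧ θ b a = t) := by
      intro b hb
      simp only [mem_filter, mem_univ, true_and, mem_union] at hb ⊢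
      by_cases h : κ t b < κ t a
      · exact Or.inl h
      · right
        have hne : b ≠ a := by
          rintro rfl
          exact absurd hb (lt_irrefl _)
        have h' : κ t a < κ t b := lt_of_le_of_ne (not_lt.1 h) ((hinj t ht.le).ne hne.symm)
        exact hchg t ht a b (Or.inl ⟨h', hb⟩)
    have := (card_le_card hs).trans (card_union_le _ _)
    have h2 := hX a t
    show (univ.filter fun b => κ (t + 1) b < κ (t + 1) a).card ≤
      (univ.filter fun b => κ t b < κ t a).card + 1
    omega
  · intro t ht a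
    have hs : (univ.filter fun b => κ t b < κ t a) ⊆
        (univ.filter fun b => κ (t + 1) b < κ (t + 1) a) ∪
          (univ.filter fun b => lt0 a b ∧ θ a b = t ∨ lt0 b a ∧ θ b a = t) := by
      intro b hb
      simp only [mem_filter, mem_univ, true_and, mem_union] at hb ⊢
      by_cases h : κ (t + 1) b < κ (t + 1) a
      · exact Or.inl h
      · right
        have hne : b ≠ a := by
          rintro rfl
          exact absurd hb (lt_irrefl _)
        have h' : κ (t + 1) a < κ (t + 1) b :=
          lt_of_le_of_ne (not_lt.1 h) ((hinj (t + 1) ht).ne hne.symm)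
        exact hchg t ht a b (Or.inr ⟨hb, h'⟩)
    have := (card_le_card hs).trans (card_union_le _ _)
    have h2 := hX a t
    show (univ.filter fun b => κ t b < κ t a).card ≤
      (univ.filter fun b => κ (t + 1) b < κ (t + 1) a).card + 1
    omega
  · intro a b hab
    have hab' := lt_of_rk (hinj 0 (Nat.zero_le _)) hab
    have hne : a ≠ b := by
      rintro rfl
      exact absurd hab' (lt_irrefl _)
    rcases htot a b hne with h | h
    · exact ⟨θ a b, h3 a b h, fun t ht => ⟨fun h' => rk_lt (h1 a b h t ht h'),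
        fun h' => rk_lt (h2 a b h t ht h')⟩⟩
    · exact absurd (h1 b a h 0 (Nat.zero_le _) (Nat.zero_le _)) hab'.asymm

theorem rk_cut {κ : α → β} (hcard : 0 < Fintype.card α) (j : ℕ) :
    ∃ a, ∀ b, (κ b < κ a → rk κ b < j) ∧ (κ a < κ b → ¬ rk κ b < j) := by
  haveI : Nonempty α := Fintype.card_pos_iff.1 hcard
  rcases (univ.filter fun a => rk κ a < j).eq_empty_or_nonempty with h | h
  · obtain ⟨a, ha⟩ := Finite.exists_min κ
    refine ⟨a, fun b => ⟨fun hb => absurd hb (not_lt.2 (ha b)), fun _ hc => ?_⟩⟩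
    have : b ∈ univ.filter fun a => rk κ a < j := by simpa using hc
    rw [h] at this
    exact notMem_empty _ this
  · obtain ⟨a, ha, hmax⟩ := exists_max_image _ κ h
    refine ⟨a, fun b => ⟨fun hb => ?_, fun hb hc => ?_⟩⟩
    · have h1 : rk κ a < j := by simpa using ha
      have := rk_lt hb
      omega
    · exact absurd (hmax b (by simpa using hc)) (not_le.2 hb)

end

variable {V : Finset (Pt 2)} {ε : ℝ}

/-- the allowable sequence of the `K`-blow-up; all its prefixes are line cuts up to rounding -/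
theorem geo (hF : Frame V ε) {K : ℕ} (hK : 0 < K) (hV : V.Nonempty) :
    ∃ (N : ℕ) (ρ : ℕ → V × Fin K → ℕ), ASeq N ρ ∧ ∀ t ≤ N, ∀ j : ℕ, ∃ s, ∀ A : Finset (Pt 2),
      A ⊆ V → (∀ x : V, (∀ i, (x, i) ∈ pre ρ t j) → (x : Pt 2) ∈ A) →
      (∀ x : V, (∀ i, (x, i) ∉ pre ρ t j) → (x : Pt 2) ∉ A) → Low V ε s A := by
  have hlow : ∀ (s h : ℝ) (S : Finset (V × Fin K)), (∀ x : V, (gh ε s x < h → ∀ i, (x, i) ∈ S) ∧
      (h < gh ε s x → ∀ i, (x, i) ∉ S)) → ∀ A : Finset (Pt 2), A ⊆ V →
      (∀ x : V, (∀ j, (x, j) ∈ S) → (x : Pt 2) ∈ A) →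
      (∀ x : V, (∀ j, (x, j) ∉ S) → (x : Pt 2) ∉ A) → Low V ε s A := by
    intro s h S hS A hA h1 h2
    refine ⟨hA, fun p hp q hq hqA => ?_⟩
    by_contra hc
    rcases lt_or_ge (gh ε s q) h with h3 | h3
    · exact hqA (h1 ⟨q, hq⟩ ((hS ⟨q, hq⟩).1 h3))
    · exact h2 ⟨p, hA hp⟩ ((hS ⟨p, hA hp⟩).2 (lt_of_le_of_lt h3 (not_le.1 hc))) hp
  have hD : 0 < 2 * K := by omega
  have hcard : 0 < Fintype.card (V × Fin K) := by
    haveI : Nonempty V := ⟨⟨hV.choose, hV.choose_spec⟩⟩
    haveI : Nonempty (Fin K) := ⟨⟨0, hK⟩⟩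
    exact Fintype.card_pos
  obtain ⟨c, h1, h2⟩ := exists_slopes (crit V ε)
  have hdiv : ∀ t ≤ (crit V ε).card * (2 * K) + (2 * K - 1), t / (2 * K) ≤ (crit V ε).card := by
    intro t ht
    rw [← Nat.lt_succ_iff, Nat.div_lt_iff_lt_mul hD, Nat.succ_mul]
    omega
  refine ⟨(crit V ε).card * (2 * K) + (2 * K - 1), fun t => rk (key V ε K c t), ?_, ?_⟩
  · refine aseq_of_keys _ _ (lt0 V ε K) (tim V ε K) ?_ ?_ ?_ ?_ ?_
    · intro a b hab
      unfold lt0
      by_cases hx : a.1 = b.1
      · have hi : a.2 ≠ b.2 := fun h => hab (Prod.ext hx h)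
        rcases lt_or_gt_of_ne hi with h | h
        · exact Or.inl (Or.inr ⟨hx, h⟩)
        · exact Or.inr (Or.inr ⟨hx.symm, h⟩)
      · have hg : gx ε a.1 ≠ gx ε b.1 := fun h => hx (Subtype.ext (hF.inj _ a.1.2 _ b.1.2 h))
        rcases lt_or_gt_of_ne hg with h | h
        · exact Or.inl (Or.inl h)
        · exact Or.inr (Or.inl h)
    · intro a b h0 t ht h
      exact (key_main hF hK h1 h2 h0 (hdiv t ht)).1 h
    · intro a b h0 t ht h
      exact (key_main hF hK h1 h2 h0 (hdiv t ht)).2 h
    · intro a b h0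
      exact tim_lt h0
    · have key2 : ∀ a b : {x // x ∈ V} × Fin K, ∀ t,
          (lt0 V ε K a b ∧ tim V ε K a b = t ∨ lt0 V ε K b a ∧ tim V ε K b a = t) →
          (a.1 = b.1 ∧ t / (2 * K) = (crit V ε).card ∧ t % (2 * K) = a.2 + b.2) ∨
          (t / (2 * K) < (crit V ε).card ∧
            gh ε (c (t / (2 * K))) b.1 = gh ε (c (t / (2 * K))) a.1 ∧
            ((gx ε a.1 < gx ε b.1 ∧ t % (2 * K) = K - 1 - a.2 + b.2) ∨
              (gx ε b.1 < gx ε a.1 ∧ t % (2 * K) = K - 1 - b.2 + a.2))) := by
        intro a b t h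
        rcases h with h | h
        · rcases exch hK h1 h.1 h.2 with h' | h'
          · exact Or.inl h'
          · exact Or.inr ⟨h'.2.1, h'.2.2.1.symm, Or.inl ⟨h'.1, h'.2.2.2⟩⟩
        · rcases exch hK h1 h.1 h.2 with h' | h'
          · exact Or.inl ⟨h'.1.symm, h'.2.1, by rw [h'.2.2, add_comm]⟩
          · exact Or.inr ⟨h'.2.1, h'.2.2.1, Or.inr ⟨h'.1, h'.2.2.2⟩⟩
      intro a b b' t hb hb'
      have ha2 := a.2.2
      have hb2 := b.2.2
      have hb2' := b'.2.2
      rcases key2 a b t hb with h | h
      · rcases key2 a b' t hb' with h' | h'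
        · refine Prod.ext (h.1.symm.trans h'.1) (Fin.ext ?_)
          have e1 := h.2.2
          have e2 := h'.2.2
          omega
        · have e1 := h.2.1
          have e2 := h'.1
          omega
      · rcases key2 a b' t hb' with h' | h'
        · have e1 := h'.2.1
          have e2 := h.1
          omega
        · have hba : (b.1 : Pt 2) ≠ a.1 := by
            intro he
            rcases h.2.2 with e | e
            · rw [he] at e
              exact absurd e.1 (lt_irrefl _)
            · rw [he] at e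
              exact absurd e.1 (lt_irrefl _)
          have hba' : (b'.1 : Pt 2) ≠ a.1 := by
            intro he
            rcases h'.2.2 with e | e
            · rw [he] at e
              exact absurd e.1 (lt_irrefl _)
            · rw [he] at e
              exact absurd e.1 (lt_irrefl _)
          have hbb : (b.1 : Pt 2) = b'.1 :=
            tie hF a.1.2 b.1.2 b'.1.2 hba hba' h.2.1 h'.2.1
          refine Prod.ext (Subtype.ext hbb) (Fin.ext ?_)
          rcases h.2.2 with e | e
          · rcases h'.2.2 with e' | e'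
            · have e1 := e.2
              have e2 := e'.2
              omega
            · have e1 := e.1
              rw [hbb] at e1
              exact absurd e1 e'.1.asymm
          · rcases h'.2.2 with e' | e'
            · have e1 := e.1
              rw [hbb] at e1
              exact absurd e1 e'.1.asymm
            · have e1 := e.2
              have e2 := e'.2
              omega
  · intro t _ j
    obtain ⟨a, ha⟩ := rk_cut (κ := key V ε K c t) hcard j
    refine ⟨c (t / (2 * K)), hlow _ (gh ε (c (t / (2 * K))) a.1) _ fun x =>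
      ⟨fun h i => ?_, fun h i => ?_⟩⟩
    · rw [mem_pre]
      exact (ha (x, i)).1 (key_lt_iff.2 (Or.inl h))
    · rw [mem_pre]
      exact (ha (x, i)).2 (key_lt_iff.2 (Or.inl h))

end Pool.Agent.H93.EA
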