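import Pool.Agent.H93.EA.Def

/-!
# H93.EA.LemA: two separated sets can be cut simultaneously in prescribed ratios
-/

set_option autoImplicit false

namespace Pool.Agent.H93.EA

open Finset

variable {α : Type} [Fintype α] [DecidableEq α] {N : ℕ} {ρ : ℕ → α → ℕ}

theorem exch (h : ASeq N ρ) {t : ℕ} (ht : t < N) {j : ℕ} (hj : j ≤ Fintype.card α) :
    pre ρ (t + 1) j = pre ρ t j ∨ ∃ a b, ρ t a + 1 = j ∧ ρ t b = j ∧ ρ (t + 1) b + 1 = j ∧
      ρ (t + 1) a = j ∧ pre ρ (t + 1) j = insert b ((pre ρ t j).erase a) := by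
  have c1 := card_pre h ht.le hj
  have c2 := card_pre h (t := t + 1) ht hj
  by_cases hs : pre ρ (t + 1) j ⊆ pre ρ t j
  · left
    exact eq_of_subset_of_card_le hs (by omega)
  · right
    obtain ⟨b, hb1, hb2⟩ := not_subset.1 hs
    have hs2 : ¬ pre ρ t j ⊆ pre ρ (t + 1) j := by
      intro hc
      have := eq_of_subset_of_card_le hc (by omega)
      rw [this] at hb2
      exact hb2 hb1
    obtain ⟨a, ha1, ha2⟩ := not_subset.1 hs2
    obtain ⟨eb1, eb2⟩ := enter h ht hb2 hb1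
    obtain ⟨ea1, ea2⟩ := leave h ht ha1 ha2
    refine ⟨a, b, ea1, eb1, eb2, ea2, ?_⟩
    ext c
    rw [mem_insert, mem_erase]
    constructor
    · intro hc
      by_cases hc1 : c ∈ pre ρ t j
      · right
        refine ⟨?_, hc1⟩
        rintro rfl
        exact ha2 hc
      · left
        obtain ⟨e1, -⟩ := enter h ht hc1 hc
        exact h.inj t ht.le (e1.trans eb1.symm)
    · rintro (rfl | ⟨hca, hc⟩)
      · exact hb1
      · by_contra hc1
        obtain ⟨e1, -⟩ := leave h ht hc hc1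
        exact hca (h.inj t ht.le (by omega))

theorem pre_succ (h : ASeq N ρ) {t : ℕ} (ht : t ≤ N) {j : ℕ} {b : α} (hb : ρ t b = j) :
    pre ρ t (j + 1) = insert b (pre ρ t j) := by
  ext c
  rw [mem_insert, mem_pre, mem_pre]
  constructor
  · intro hc
    rcases Nat.lt_succ_iff_lt_or_eq.1 hc with h1 | h1
    · exact Or.inr h1
    · exact Or.inl (h.inj t ht (h1.trans hb.symm))
  · rintro (rfl | h1)
    · omega
    · omega

theorem step_card (h : ASeq N ρ) {t : ℕ} (ht : t ≤ N) (X : Finset α) (j : ℕ) :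
    (X ∩ pre ρ t (j + 1)).card ≤ (X ∩ pre ρ t j).card + 1 := by
  have hs : X ∩ pre ρ t (j + 1) ⊆ (X ∩ pre ρ t j) ∪ (univ.filter fun a => ρ t a = j) := by
    intro a ha
    rw [mem_inter, mem_pre] at ha
    rw [mem_union, mem_inter, mem_pre, mem_filter]
    rcases Nat.lt_succ_iff_lt_or_eq.1 ha.2 with h1 | h1
    · exact Or.inl ⟨ha.1, h1⟩
    · exact Or.inr ⟨mem_univ _, h1⟩
  have h1 : (univ.filter fun a => ρ t a = j).card ≤ 1 := by
    rw [card_le_one]
    intro a ha b hb
    rw [mem_filter] at ha hb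
    exact h.inj t ht (ha.2.trans hb.2.symm)
  have := (card_le_card hs).trans (card_union_le _ _)
  omega

theorem mono_card (X : Finset α) {t j k : ℕ} (hjk : j ≤ k) :
    (X ∩ pre ρ t j).card ≤ (X ∩ pre ρ t k).card :=
  card_le_card (inter_subset_inter_left (pre_mono hjk))

/-- discrete intermediate value theorem -/
theorem ivt {f : ℕ → ℕ} (hf : ∀ j, f (j + 1) ≤ f j + 1) {a b v : ℕ} (hab : a ≤ b) (ha : f a ≤ v)
    (hb : v ≤ f b) : ∃ j, a ≤ j ∧ j ≤ b ∧ f j = v := by
  induction b, hab using Nat.le_induction with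
  | base => exact ⟨a, le_rfl, le_rfl, le_antisymm ha hb⟩
  | succ b hab ih =>
    by_cases h1 : v ≤ f b
    · obtain ⟨j, h2, h3, h4⟩ := ih h1
      exact ⟨j, h2, by omega, h4⟩
    · have := hf b
      exact ⟨b + 1, by omega, le_rfl, by omega⟩

theorem exists_card (h : ASeq N ρ) {t : ℕ} (ht : t ≤ N) (X : Finset α) {a b p : ℕ} (hab : a ≤ b)
    (ha : (X ∩ pre ρ t a).card ≤ p) (hb : p ≤ (X ∩ pre ρ t b).card) :
    ∃ j, a ≤ j ∧ j ≤ b ∧ (X ∩ pre ρ t j).card = p :=
  ivt (f := fun j => (X ∩ pre ρ t j).card) (fun j => step_card h ht X j) hab ha hb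

theorem both (h : ASeq N ρ) {t : ℕ} (ht : t ≤ N) (X Y : Finset α) {p q i j : ℕ}
    (hi : i ≤ Fintype.card α) (hj : j ≤ Fintype.card α)
    (h1 : (X ∩ pre ρ t i).card = p) (h2 : (Y ∩ pre ρ t i).card ≤ q)
    (h3 : (X ∩ pre ρ t j).card = p) (h4 : q ≤ (Y ∩ pre ρ t j).card) :
    ∃ k ≤ Fintype.card α, (X ∩ pre ρ t k).card = p ∧ (Y ∩ pre ρ t k).card = q := by
  rcases le_total i j with hij | hij
  · obtain ⟨k, hk1, hk2, hk3⟩ := exists_card h ht Y hij h2 h4
    refine ⟨k, by omega, ?_, hk3⟩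
    have e1 := mono_card X (ρ := ρ) (t := t) hk1
    have e2 := mono_card X (ρ := ρ) (t := t) hk2
    omega
  · have e1 := mono_card Y (ρ := ρ) (t := t) hij
    exact ⟨i, hi, h1, by omega⟩

theorem lemA_step (h : ASeq N ρ) {X Y : Finset α} (hXY : Disjoint X Y) {t : ℕ} (ht : t < N)
    {p q : ℕ} (hp : p ≤ X.card)
    (hq : ∀ j ≤ Fintype.card α, (X ∩ pre ρ t j).card = p → (Y ∩ pre ρ t j).card < q) :
    ∃ j ≤ Fintype.card α, (X ∩ pre ρ (t + 1) j).card = p ∧ (Y ∩ pre ρ (t + 1) j).card < q := by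
  have hex : ∃ j, (X ∩ pre ρ (t + 1) j).card = p := by
    obtain ⟨j, -, -, hj⟩ := exists_card h (t := t + 1) ht X (a := 0) (b := Fintype.card α)
      (Nat.zero_le _) (p := p) (by rw [pre_zero]; simp) (by rw [pre_card h ht]; simpa using hp)
    exact ⟨j, hj⟩
  classical
  obtain ⟨j, hj1, hj2⟩ : ∃ j, (X ∩ pre ρ (t + 1) j).card = p ∧
      ∀ i < j, (X ∩ pre ρ (t + 1) i).card ≠ p := ⟨Nat.find hex, Nat.find_spec hex,
        fun i hi => Nat.find_min hex hi⟩
  have hjn : j ≤ Fintype.card α := by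
    by_contra hc
    apply hj2 (Fintype.card α) (by omega)
    have e1 := mono_card X (ρ := ρ) (t := t + 1) (j := Fintype.card α) (k := j) (by omega)
    have e2 : (X ∩ pre ρ (t + 1) (Fintype.card α)).card = X.card := by
      rw [pre_card h ht]
      simp
    omega
  refine ⟨j, hjn, hj1, ?_⟩
  rcases Nat.eq_zero_or_pos j with h0 | h0
  · subst h0
    rw [pre_zero] at hj1 ⊢
    have := hq 0 (Nat.zero_le _) (by rw [pre_zero]; exact hj1)
    rw [pre_zero] at this
    exact this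
  rcases exch h ht hjn with he | ⟨a, b, ha, hb, hb', ha', he⟩
  · rw [he] at hj1 ⊢
    exact hq j hjn hj1
  · -- `b` is the last point of the prefix at time `t + 1`, it is in `X`
    have hpre : pre ρ (t + 1) j = insert b (pre ρ (t + 1) (j - 1)) := by
      have := pre_succ h (t := t + 1) ht (j := j - 1) (b := b) (by omega)
      rw [← this]
      congr 1
      omega
    have hbX : b ∈ X := by
      by_contra hbX
      apply hj2 (j - 1) (by omega)
      rw [hpre, inter_insert_of_notMem hbX] at hj1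
      exact hj1
    have hbY : b ∉ Y := disjoint_left.1 hXY hbX
    have hbt : b ∉ pre ρ t j := by
      rw [mem_pre]
      omega
    have hat : a ∈ pre ρ t j := by
      rw [mem_pre]
      omega
    have hab : b ≠ a := by
      rintro rfl
      exact hbt hat
    have hcardX : (X ∩ pre ρ (t + 1) j).card = (X ∩ (pre ρ t j).erase a).card + 1 := by
      rw [he, inter_insert_of_mem hbX, card_insert_of_notMem]
      intro hc
      exact hbt (mem_of_mem_erase (mem_inter.1 hc).2)
    have hcardY : (Y ∩ pre ρ (t + 1) j).card = (Y ∩ (pre ρ t j).erase a).card := by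
      rw [he, inter_insert_of_notMem hbY]
    have hYle : (Y ∩ (pre ρ t j).erase a).card ≤ (Y ∩ pre ρ t j).card :=
      card_le_card (inter_subset_inter_left (erase_subset _ _))
    by_cases haX : a ∈ X
    · have e1 : (X ∩ (pre ρ t j).erase a).card + 1 = (X ∩ pre ρ t j).card := by
        rw [inter_erase]
        exact card_erase_add_one (mem_inter.2 ⟨haX, hat⟩)
      have e2 := hq j hjn (by omega)
      omega
    · have e1 : (X ∩ (pre ρ t j).erase a).card = (X ∩ pre ρ t j).card := by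
        rw [inter_erase, erase_eq_of_notMem]
        intro hc
        exact haX (mem_inter.1 hc).1
      have hbn : j + 1 ≤ Fintype.card α := by
        have := h.lt_card t ht.le b
        omega
      have e2 : (X ∩ pre ρ t (j + 1)).card = (X ∩ pre ρ t j).card + 1 := by
        rw [pre_succ h ht.le hb, inter_insert_of_mem hbX, card_insert_of_notMem]
        intro hc
        exact hbt (mem_inter.1 hc).2
      have e3 : (Y ∩ pre ρ t (j + 1)).card = (Y ∩ pre ρ t j).card := by
        rw [pre_succ h ht.le hb, inter_insert_of_notMem hbY]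
      have e4 := hq (j + 1) hbn (by omega)
      omega

/-- **Lemma A** -/
theorem lemA (h : ASeq N ρ) {X Y : Finset α} {m : ℕ} (hm : m ≤ Fintype.card α)
    (hX : X ⊆ pre ρ 0 m) (hY : Disjoint Y (pre ρ 0 m)) {p q : ℕ} (hp : p ≤ X.card)
    (hq : q ≤ Y.card) : ∃ t ≤ N, ∃ j ≤ Fintype.card α,
      (X ∩ pre ρ t j).card = p ∧ (Y ∩ pre ρ t j).card = q := by
  have hXY : Disjoint X Y := (hY.mono_right hX).symm
  -- the last time
  have hR : ∃ t, t ≤ N ∧ ∃ j ≤ Fintype.card α, (X ∩ pre ρ t j).card = p ∧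
      q ≤ (Y ∩ pre ρ t j).card := by
    have e0 : pre ρ N (Fintype.card α - m) = (pre ρ 0 m)ᶜ := by
      rw [pre_N h (by omega)]
      congr 2
      omega
    obtain ⟨j, hj1, hj2, hj3⟩ := exists_card h (t := N) le_rfl X (a := Fintype.card α - m)
      (b := Fintype.card α) (by omega) (p := p) (by
        rw [e0]
        have : X ∩ (pre ρ 0 m)ᶜ = ∅ := by
          rw [← disjoint_iff_inter_eq_empty]
          exact disjoint_compl_right.mono_left hX
        rw [this]
        simp) (by rw [pre_card h le_rfl]; simpa using hp)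
    refine ⟨N, le_rfl, j, hj2, hj3, ?_⟩
    have e1 : Y ⊆ pre ρ N j := by
      refine Subset.trans ?_ (pre_mono hj1)
      rw [e0]
      intro y hy
      rw [mem_compl]
      exact disjoint_left.1 hY hy
    rw [inter_eq_left.2 e1]
    exact hq
  -- the first time
  have hQ : ∃ j ≤ Fintype.card α, (X ∩ pre ρ 0 j).card = p ∧ (Y ∩ pre ρ 0 j).card ≤ q := by
    obtain ⟨j, -, hj2, hj3⟩ := exists_card h (t := 0) (Nat.zero_le _) X (a := 0)
      (b := m) (Nat.zero_le _) (p := p) (by rw [pre_zero]; simp) (by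
        rw [inter_eq_left.2 hX]
        exact hp)
    refine ⟨j, by omega, hj3, ?_⟩
    have : Y ∩ pre ρ 0 j = ∅ := by
      rw [← disjoint_iff_inter_eq_empty]
      exact hY.mono_right (pre_mono hj2)
    rw [this]
    simp
  classical
  obtain ⟨t, ⟨htN, j, hj, hjp, hjq⟩, hmin⟩ : ∃ t, (t ≤ N ∧ ∃ j ≤ Fintype.card α,
      (X ∩ pre ρ t j).card = p ∧ q ≤ (Y ∩ pre ρ t j).card) ∧ ∀ s < t, ¬ (s ≤ N ∧
      ∃ j ≤ Fintype.card α, (X ∩ pre ρ s j).card = p ∧ q ≤ (Y ∩ pre ρ s j).card) :=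
    ⟨Nat.find hR, Nat.find_spec hR, fun s hs => Nat.find_min hR hs⟩
  rcases Nat.eq_zero_or_pos t with h0 | h0
  · subst h0
    obtain ⟨i, hi, hip, hiq⟩ := hQ
    obtain ⟨k, hk, hk1, hk2⟩ := both h (Nat.zero_le _) X Y hi hj hip hiq hjp hjq
    exact ⟨0, Nat.zero_le _, k, hk, hk1, hk2⟩
  · obtain ⟨s, rfl⟩ : ∃ s, t = s + 1 := ⟨t - 1, by omega⟩
    have hs : ∀ j ≤ Fintype.card α, (X ∩ pre ρ s j).card = p → (Y ∩ pre ρ s j).card < q := by
      intro i hi hip
      by_contra hc
      exact hmin s (by omega) ⟨by omega, i, hi, hip, not_lt.1 hc⟩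
    obtain ⟨i, hi, hip, hiq⟩ := lemA_step h hXY (t := s) (by omega) hp hs
    obtain ⟨k, hk, hk1, hk2⟩ := both h htN X Y hi hj hip hiq.le hjp hjq
    exact ⟨s + 1, htN, k, hk, hk1, hk2⟩

end Pool.Agent.H93.EA
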